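import Pool.Agent.helper2.Bis.Defs

set_option autoImplicit false

/-! MP_1e54c0_co: module B6. -/

namespace Pool.Agent.helper40.Bis

open Finset Pool.Agent.helper2.Bis

theorem greedy {V : Type} [Fintype V] [DecidableEq V] (R : V → V → Prop)
    (hsymm : ∀ u v, R u v → R v u) (H Z Y : Finset V) (hZ : Disjoint H Z) (hYZ : Y ⊆ Z)
    (D : ℕ) (hD : ∀ v, v ∉ H → dg R v ≤ D) (N : ℕ) (hN : N * (D ^ 2 + 1) ≤ Y.card) :
    ∀ n ≤ N, ∃ K ⊆ Y, K.card = n ∧
      ∀ v, v ∉ H → ∀ a ∈ K, ∀ b ∈ K, R v a → R v b → a = b := by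
  intro n
  induction n with
  | zero => exact fun _ => ⟨∅, by simp, by simp, by simp⟩
  | succ n ih =>
    intro hn
    obtain ⟨K, hKY, hKc, hK⟩ := ih (by omega)
    set Bl : Finset V := K.biUnion (fun u => insert u
      (((nb R u).filter (fun v => v ∉ H)).biUnion (fun v => nb R v))) with hBl
    have hcard : Bl.card ≤ n * (D ^ 2 + 1) := by
      rw [hBl, ← hKc]
      refine Finset.card_biUnion_le_card_mul _ _ _ (fun u hu => ?_)
      refine (Finset.card_insert_le _ _).trans ?_
      gcongr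
      have huH : u ∉ H := fun h => (Finset.disjoint_left.mp hZ) h (hYZ (hKY hu))
      have h1 : ((nb R u).filter (fun v => v ∉ H)).card ≤ D :=
        (Finset.card_filter_le _ _).trans (hD u huH)
      calc _ ≤ ((nb R u).filter (fun v => v ∉ H)).card * D := by
              refine Finset.card_biUnion_le_card_mul _ _ _ (fun v hv => ?_)
              exact hD v (Finset.mem_filter.mp hv).2
        _ ≤ D * D := by gcongr
        _ = D ^ 2 := by ring
    have hlt : Bl.card < Y.card := by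
      have : n * (D ^ 2 + 1) < N * (D ^ 2 + 1) := Nat.mul_lt_mul_of_pos_right (by omega) (by positivity)
      omega
    obtain ⟨w, hwY, hwB⟩ := Finset.exists_mem_notMem_of_card_lt_card hlt
    have hwK : w ∉ K := by
      intro h
      exact hwB (by rw [hBl]; exact Finset.mem_biUnion.mpr ⟨w, h, Finset.mem_insert_self _ _⟩)
    have key : ∀ v, v ∉ H → ∀ a ∈ K, R v a → R v w → False := by
      intro v hv a ha hva hvw
      apply hwB
      rw [hBl]
      refine Finset.mem_biUnion.mpr ⟨a, ha, Finset.mem_insert_of_mem ?_⟩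
      refine Finset.mem_biUnion.mpr ⟨v, ?_, mem_nb.mpr hvw⟩
      exact Finset.mem_filter.mpr ⟨mem_nb.mpr (hsymm _ _ hva), hv⟩
    refine ⟨insert w K, ?_, ?_, ?_⟩
    · exact Finset.insert_subset hwY hKY
    · rw [Finset.card_insert_of_notMem hwK, hKc]
    · intro v hv a ha b hb hva hvb
      rcases Finset.mem_insert.mp ha with ha' | ha'
      · rcases Finset.mem_insert.mp hb with hb' | hb'
        · rw [ha', hb']
        · exact (key v hv b hb' hvb (ha' ▸ hva)).elim
      · rcases Finset.mem_insert.mp hb with hb' | hb'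
        · exact (key v hv a ha' hva (hb' ▸ hvb)).elim
        · exact hK v hv a ha' b hb' hva hvb

theorem chooseK {V : Type} [Fintype V] [DecidableEq V] (R : V → V → Prop) (hsymm : ∀ u v, R u v → R v u)
    (H Z : Finset V) (hZ : Disjoint H Z) (D k : ℕ) (hk : 2 ≤ k) (hD : ∀ v, v ∉ H → dg R v ≤ D)
    (X : V → Finset V) (hX : ∀ h ∈ H, 9 * k ≤ (X h).card)
    (N : ℕ) (hN : (N ≤ 2 ∧ N ≤ Z.card) ∨ N * (D ^ 2 + 1) + 8 * k * H.card ≤ Z.card) :
    ∃ K ⊆ Z, K.card = N ∧ (∀ v, v ∉ H → (nb R v ∩ K).card ≤ 2) ∧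
      (∀ h ∈ H, 8 * k ≤ (X h \ K).card) := by
  rcases hN with ⟨h2, hle⟩ | hbig
  · obtain ⟨K, hKZ, hKc⟩ := Finset.exists_subset_card_eq hle
    refine ⟨K, hKZ, hKc, fun v _ => ?_, fun h hh => ?_⟩
    · exact (Finset.card_le_card Finset.inter_subset_right).trans (by omega)
    · have h1 := Finset.le_card_sdiff K (X h)
      have h2 := hX h hh
      omega
  · have hM : ∀ h : V, ∃ M : Finset V, h ∈ H → (M ⊆ X h ∧ M.card = 8 * k) := by
      intro h
      by_cases hh : h ∈ H
      · obtain ⟨M, hM1, hM2⟩ := Finset.exists_subset_card_eq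
          (show 8 * k ≤ (X h).card by have := hX h hh; omega)
        exact ⟨M, fun _ => ⟨hM1, hM2⟩⟩
      · exact ⟨∅, fun h => (hh h).elim⟩
    choose M hM using hM
    set U : Finset V := H.biUnion M with hU
    have hUc : U.card ≤ 8 * k * H.card := by
      rw [hU, mul_comm]
      exact Finset.card_biUnion_le_card_mul _ _ _ (fun h hh => le_of_eq (hM h hh).2)
    have hY : N * (D ^ 2 + 1) ≤ (Z \ U).card := by
      have := Finset.le_card_sdiff U Z
      omega
    obtain ⟨K, hKY, hKc, hK⟩ := greedy R hsymm H Z (Z \ U) hZ Finset.sdiff_subset D hD N hY N le_rfl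
    refine ⟨K, hKY.trans Finset.sdiff_subset, hKc, fun v hv => ?_, fun h hh => ?_⟩
    · refine le_trans (Finset.card_le_one.mpr ?_) (by norm_num)
      intro a ha b hb
      rw [Finset.mem_inter] at ha hb
      exact hK v hv a ha.2 b hb.2 (mem_nb.mp ha.1) (mem_nb.mp hb.1)
    · rw [← (hM h hh).2]
      refine Finset.card_le_card (fun x hx => ?_)
      refine Finset.mem_sdiff.mpr ⟨(hM h hh).1 hx, fun hxK => ?_⟩
      exact (Finset.mem_sdiff.mp (hKY hxK)).2 (Finset.mem_biUnion.mpr ⟨h, hh, hx⟩)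

end Pool.Agent.helper40.Bis
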