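import Pool.Agent.helper2.Bis.Defs

set_option autoImplicit false

/-! MP_1e54c0_co: module B8: the final theorem from the core theorem and edge minimality. -/

namespace Pool.Agent.helper40.Bis

open Finset Pool.Agent.helper2.Bis

/-- statement of B1 -/
def EdgeMin : Prop := ∀ {V : Type} [Fintype V] (R : V → V → Prop) (_ : ∀ u v, R u v → R v u)
    (m : ℕ) (_ : ∀ v, m ≤ dg R v),
    ∃ S : V → V → Prop, (∀ u v, S u v → S v u) ∧ (∀ u v, S u v → R u v) ∧ (∀ v, m ≤ dg S v) ∧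
      ∀ u v, S u v → dg S u = m ∨ dg S v = m

/-- statement of B7 -/
def Core : Prop := ∀ (c : ℝ) (_ : 0 < c) (_ : c ≤ 1 / 8), ∃ m0 : ℕ, ∀ m k : ℕ, m0 ≤ m → m ≤ 4 * k →
    (k : ℝ) ≤ (3 / 8 - 2 * c) * m →
    ∀ (V : Type) [Fintype V] (R : V → V → Prop), (∀ u v, R u v → R v u) → (∀ v, ¬ R v v) →
    (∀ v, m ≤ dg R v) → (∀ u v, R u v → dg R u = m ∨ dg R v = m) →
    ∀ J : ℝ, J = 1 ∨ J = -1 →
    ∃ e : V → ℝ, (∀ v, e v = 1 ∨ e v = -1) ∧ |∑ v, e v| ≤ 1 ∧
      ∀ v, k ≤ ((nb R v).filter (fun w => J * e v * e w = 1)).card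

/-- minimum degree at least `m` gives both kinds of bisections -/
def Good (k m : ℕ) : Prop :=
  ∀ (V : Type) [Fintype V] [DecidableEq V] (G : SimpleGraph V) [DecidableRel G.Adj],
        (∀ v : V, m ≤ G.degree v) →
        (∃ A : Finset V,
            |2 * (A.card : ℤ) - (Fintype.card V : ℤ)| ≤ 1 ∧
            ∀ v : V, k ≤ ((G.neighborFinset v).filter (fun w => (w ∈ A ↔ v ∈ A))).card) ∧
        (∃ A : Finset V,
            |2 * (A.card : ℤ) - (Fintype.card V : ℤ)| ≤ 1 ∧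
            ∀ v : V, k ≤ ((G.neighborFinset v).filter (fun w => (w ∈ A ↔ v ∉ A))).card)

lemma Good.mono {k k' m m' : ℕ} (h : Good k m) (hk : k' ≤ k) (hm : m ≤ m') : Good k' m' := by
  intro V _ _ G _ hG
  obtain ⟨⟨A, hA1, hA2⟩, ⟨B, hB1, hB2⟩⟩ := h V G (fun v => hm.trans (hG v))
  exact ⟨⟨A, hA1, fun v => hk.trans (hA2 v)⟩, ⟨B, hB1, fun v => hk.trans (hB2 v)⟩⟩

lemma sum_sign {V : Type} [Fintype V] [DecidableEq V] (e : V → ℝ) (he : ∀ v, e v = 1 ∨ e v = -1)
    (A : Finset V) (hA : ∀ v, v ∈ A ↔ e v = 1) :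
    ∑ v, e v = 2 * (A.card : ℝ) - (Fintype.card V : ℝ) := by
  have h : ∀ v, e v = 2 * (if v ∈ A then (1 : ℝ) else 0) - 1 := by
    intro v
    rcases he v with h | h
    · rw [if_pos ((hA v).mpr h), h]; norm_num
    · rw [if_neg (fun hv => by have := (hA v).mp hv; rw [h] at this; norm_num at this), h]; norm_num
  rw [Finset.sum_congr rfl (fun v _ => h v), Finset.sum_sub_distrib, ← Finset.mul_sum]
  simp

lemma good_of_core (hmin : EdgeMin) {m k : ℕ}
    (h : ∀ (V : Type) [Fintype V] (R : V → V → Prop), (∀ u v, R u v → R v u) → (∀ v, ¬ R v v) →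
    (∀ v, m ≤ dg R v) → (∀ u v, R u v → dg R u = m ∨ dg R v = m) →
    ∀ J : ℝ, J = 1 ∨ J = -1 →
    ∃ e : V → ℝ, (∀ v, e v = 1 ∨ e v = -1) ∧ |∑ v, e v| ≤ 1 ∧
      ∀ v, k ≤ ((nb R v).filter (fun w => J * e v * e w = 1)).card) : Good k m := by
  classical
  intro V _ _ G _ hG
  obtain ⟨S, hS1, hS2, hS3, hS4⟩ := hmin (V := V) G.Adj (fun u v h => h.symm) m (by
    intro v
    refine (hG v).trans (le_of_eq ?_)
    unfold dg
    rw [← SimpleGraph.card_neighborFinset_eq_degree]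
    congr 1
    ext w
    simp [mem_nb])
  have hirr : ∀ v, ¬ S v v := fun v hv => (G.loopless.irrefl v) (hS2 v v hv)
  have main : ∀ J : ℝ, J = 1 ∨ J = -1 → ∃ e : V → ℝ, (∀ v, e v = 1 ∨ e v = -1) ∧
      |2 * ((univ.filter (fun v => e v = 1)).card : ℤ) - (Fintype.card V : ℤ)| ≤ 1 ∧
      ∀ v, k ≤ ((nb S v).filter (fun w => J * e v * e w = 1)).card := by
    intro J hJ
    obtain ⟨e, he1, he2, he3⟩ := h V S hS1 hirr hS3 hS4 J hJ
    refine ⟨e, he1, ?_, he3⟩
    rw [sum_sign e he1 (univ.filter (fun v => e v = 1)) (by simp)] at he2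
    exact_mod_cast he2
  constructor
  · obtain ⟨e, he1, he2, he3⟩ := main 1 (Or.inl rfl)
    refine ⟨_, he2, fun v => (he3 v).trans (Finset.card_le_card ?_)⟩
    intro w hw
    rw [Finset.mem_filter, mem_nb] at hw
    rw [Finset.mem_filter, SimpleGraph.mem_neighborFinset]
    refine ⟨hS2 v w hw.1, ?_⟩
    have h1 := hw.2
    simp only [Finset.mem_filter, Finset.mem_univ, true_and]
    rcases he1 v with h | h <;> rcases he1 w with h' | h' <;> rw [h, h'] at h1 ⊢ <;>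
      first | (exfalso; revert h1; norm_num; done) | norm_num
  · obtain ⟨e, he1, he2, he3⟩ := main (-1) (Or.inr rfl)
    refine ⟨_, he2, fun v => (he3 v).trans (Finset.card_le_card ?_)⟩
    intro w hw
    rw [Finset.mem_filter, mem_nb] at hw
    rw [Finset.mem_filter, SimpleGraph.mem_neighborFinset]
    refine ⟨hS2 v w hw.1, ?_⟩
    have h1 := hw.2
    simp only [Finset.mem_filter, Finset.mem_univ, true_and]
    rcases he1 v with h | h <;> rcases he1 w with h' | h' <;> rw [h, h'] at h1 ⊢ <;>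
      first | (exfalso; revert h1; norm_num; done) | norm_num

/-- for `0 < c ≤ 1/32` and large `k`, all `m` between `k/(3/8-2c)` and `4k` are good -/
lemma good_large (hmin : EdgeMin) (hcore : Core) (c : ℝ) (hc : 0 < c) (hc32 : c ≤ 1 / 32) :
    ∃ k0 : ℕ, ∀ k : ℕ, k0 ≤ k → ∀ m : ℕ, m ≤ 4 * k → (k : ℝ) ≤ (3 / 8 - 2 * c) * m → Good k m := by
  obtain ⟨m0, hm0⟩ := hcore c hc (by linarith)
  refine ⟨m0, fun k hk m hm hkm => ?_⟩
  refine good_of_core hmin (hm0 m k ?_ hm hkm)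
  have h1 : (k : ℝ) ≤ m := by
    refine hkm.trans ?_
    have : (0 : ℝ) ≤ m := Nat.cast_nonneg m
    nlinarith
  have h2 : k ≤ m := by exact_mod_cast h1
  omega

lemma exists_good (hmin : EdgeMin) (hcore : Core) (k : ℕ) : ∃ m, Good k m := by
  obtain ⟨k0, hk0⟩ := good_large hmin hcore (1 / 32) (by norm_num) le_rfl
  refine ⟨4 * max k k0, (hk0 (max k k0) (le_max_right _ _) _ le_rfl ?_).mono (le_max_left _ _) le_rfl⟩
  push_cast
  have : (0 : ℝ) ≤ max (k : ℝ) (k0 : ℝ) := (Nat.cast_nonneg k).trans (le_max_left _ _)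
  linarith

open Classical in
theorem final_of (hmin : EdgeMin) (hcore : Core) :
    ∃ f : ℕ → ℕ,
      Filter.Tendsto (fun k : ℕ => ((f k : ℝ) - 8 / 3 * (k : ℝ)) / (k : ℝ)) Filter.atTop (nhds 0) ∧
      ∀ (k : ℕ) (V : Type) [Fintype V] [DecidableEq V] (G : SimpleGraph V) [DecidableRel G.Adj],
        (∀ v : V, f k ≤ G.degree v) →
        (∃ A : Finset V,
            |2 * (A.card : ℤ) - (Fintype.card V : ℤ)| ≤ 1 ∧
            ∀ v : V, k ≤ ((G.neighborFinset v).filter (fun w => (w ∈ A ↔ v ∈ A))).card) ∧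
        (∃ A : Finset V,
            |2 * (A.card : ℤ) - (Fintype.card V : ℤ)| ≤ 1 ∧
            ∀ v : V, k ≤ ((G.neighborFinset v).filter (fun w => (w ∈ A ↔ v ∉ A))).card) := by
  refine ⟨fun k => max (Nat.find (exists_good hmin hcore k)) ⌈(8 / 3 * (k : ℝ))⌉₊, ?_, ?_⟩
  swap
  · intro k V _ _ G _ hG
    exact ((Nat.find_spec (exists_good hmin hcore k)).mono le_rfl (le_max_left _ _)) V G hG
  rw [Metric.tendsto_atTop]
  intro ε hε
  set c : ℝ := min (1 / 32) (ε / 40) with hcdef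
  have hc : 0 < c := lt_min (by norm_num) (by linarith)
  have hc32 : c ≤ 1 / 32 := min_le_left _ _
  have hcε : c ≤ ε / 40 := min_le_right _ _
  obtain ⟨k0, hk0⟩ := good_large hmin hcore c hc hc32
  obtain ⟨k1, hk1⟩ := exists_nat_gt (2 / ε)
  refine ⟨max k0 (max k1 2), fun k hk => ?_⟩
  have hkk0 : k0 ≤ k := (le_max_left _ _).trans hk
  have hkk1 : k1 ≤ k := ((le_max_left _ _).trans (le_max_right _ _)).trans hk
  have hk2 : 2 ≤ k := ((le_max_right _ _).trans (le_max_right _ _)).trans hk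
  have hkR : (2 : ℝ) ≤ k := by exact_mod_cast hk2
  have hkpos : (0 : ℝ) < k := by linarith
  have hkε : 2 / ε < k := hk1.trans_le (by exact_mod_cast hkk1)
  have hkε' : 2 < ε * k := by
    rw [div_lt_iff₀ hε] at hkε
    linarith
  set d : ℝ := 3 / 8 - 2 * c with hd
  have hd0 : 5 / 16 ≤ d := by rw [hd]; linarith
  have hdpos : 0 < d := by linarith
  set m : ℕ := ⌈(k : ℝ) / d⌉₊ with hm
  have hm1 : (k : ℝ) / d ≤ m := Nat.le_ceil _
  have hm2 : (m : ℝ) < k / d + 1 := Nat.ceil_lt_add_one (by positivity)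
  have hkd : (k : ℝ) / d ≤ 16 / 5 * k := by
    rw [div_le_iff₀ hdpos]
    nlinarith
  have hm4 : m ≤ 4 * k := by
    have : (m : ℝ) ≤ 4 * k := by
      have h5 : (m : ℝ) < 16 / 5 * k + 1 := by linarith
      nlinarith
    exact_mod_cast this
  have hkm : (k : ℝ) ≤ d * m := by
    have := (div_le_iff₀ hdpos).mp hm1
    linarith
  have hgood : Good k m := hk0 k hkk0 m hm4 hkm
  have hfind : Nat.find (exists_good hmin hcore k) ≤ m := Nat.find_min' _ hgood
  -- upper bound for k/d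
  have hkd2 : (k : ℝ) / d ≤ (8 / 3 + 18 * c) * k := by
    rw [div_le_iff₀ hdpos]
    have : (1 : ℝ) ≤ (8 / 3 + 18 * c) * d := by
      rw [hd]; nlinarith
    nlinarith
  have hup : ((max (Nat.find (exists_good hmin hcore k)) ⌈(8 / 3 * (k : ℝ))⌉₊ : ℕ) : ℝ)
      ≤ (8 / 3 + 18 * c) * k + 1 := by
    rw [Nat.cast_max]
    refine max_le ?_ ?_
    · have : ((Nat.find (exists_good hmin hcore k) : ℕ) : ℝ) ≤ m := by exact_mod_cast hfind
      linarith
    · have : ((⌈(8 / 3 * (k : ℝ))⌉₊ : ℕ) : ℝ) < 8 / 3 * (k : ℝ) + 1 :=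
        Nat.ceil_lt_add_one (by positivity)
      nlinarith
  have hlow : 8 / 3 * (k : ℝ) ≤
      ((max (Nat.find (exists_good hmin hcore k)) ⌈(8 / 3 * (k : ℝ))⌉₊ : ℕ) : ℝ) := by
    rw [Nat.cast_max]
    exact (Nat.le_ceil _).trans (le_max_right _ _)
  rw [Real.dist_eq, sub_zero, abs_of_nonneg (div_nonneg (by linarith) hkpos.le), div_lt_iff₀ hkpos]
  have : 18 * c * k + 1 < ε * k := by nlinarith
  linarith

end Pool.Agent.helper40.Bis
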